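import Pool.Agent.Y745.LD.DefsA
import Pool.Agent.Y655.SW.MC
import Pool.Agent.Y41.SW.FM
import Pool.Agent.Y895.SW.BVDX

set_option autoImplicit false

/-!
LD project (helper745, MP_6bc78b_nt), job LD-G2M (helper949): the sum over the small primes is rarely extremely large,
and it is almost constant in short intervals.
-/

namespace Pool.Agent.Y949.LD

open Filter Topology MeasureTheory Complex
open Pool.Agent.Y745.SW Pool.Agent.Y745.LD
open Pool.Agent.Y655.SW (Dw SS VV SS_nonneg SS_upper mem_Pr pA_apply)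
open Pool.Agent.Y41.SW (DP DP_pow pA_supp supp_pow)
open Pool.Agent.Y895.SW (D db D_hasDerivAt D_cont)

noncomputable section

/-! ### sums of squares of the coefficients of the powers -/

lemma SS_le {y : ℝ} (hy : 0 ≤ y) (k : ℕ) : SS y k ≤ (k.factorial : ℝ) * VV y ^ k := by
  have hV : 0 ≤ VV y := Finset.sum_nonneg fun p _ => by positivity
  induction k with
  | zero => simp [SS]
  | succ k ih =>
    refine (SS_upper hy k).trans ?_
    rw [Nat.factorial_succ, pow_succ]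
    push_cast
    have h1 : VV y * SS y k ≤ VV y * ((k.factorial : ℝ) * VV y ^ k) := mul_le_mul_of_nonneg_left ih hV
    calc ((k : ℝ) + 1) * (VV y * SS y k) ≤ ((k : ℝ) + 1) * (VV y * ((k.factorial : ℝ) * VV y ^ k)) :=
          mul_le_mul_of_nonneg_left h1 (by positivity)
      _ = _ := by ring

lemma pA_nonneg (y : ℝ) (n : ℕ) : 0 ≤ pA y n := by
  rw [pA_apply]
  split_ifs
  · positivity
  · exact le_rfl

lemma pow_nn (y : ℝ) (k n : ℕ) : 0 ≤ (pA y ^ k) n := by
  induction k generalizing n with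
  | zero =>
    rw [pow_zero, ArithmeticFunction.one_apply]
    split_ifs <;> norm_num
  | succ k ih =>
    rw [pow_succ, ArithmeticFunction.mul_apply]
    exact Finset.sum_nonneg fun x _ => mul_nonneg (ih _) (pA_nonneg _ _)

/-- the coefficients with logarithms -/
lemma Dw_bound {y W : ℝ} (w : ℕ → ℝ) (hw : ∀ n : ℕ, pA y n ≠ 0 → 0 ≤ w n ∧ w n ≤ W) (hW : 0 ≤ W) (k n : ℕ) :
    0 ≤ (Dw w (pA y) ^ k) n ∧ (Dw w (pA y) ^ k) n ≤ W ^ k * (pA y ^ k) n := by
  induction k generalizing n with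
  | zero =>
    rw [pow_zero, pow_zero, pow_zero, one_mul, ArithmeticFunction.one_apply]
    split_ifs <;> norm_num
  | succ k ih =>
    have h1 : ∀ m : ℕ, 0 ≤ Dw w (pA y) m ∧ Dw w (pA y) m ≤ W * pA y m := by
      intro m
      rw [Pool.Agent.Y655.SW.Dw_apply]
      by_cases h : pA y m = 0
      · rw [h]; simp
      · obtain ⟨h2, h3⟩ := hw m h
        exact ⟨mul_nonneg h2 (pA_nonneg _ _), mul_le_mul_of_nonneg_right h3 (pA_nonneg _ _)⟩
    rw [pow_succ, ArithmeticFunction.mul_apply, pow_succ (pA y), ArithmeticFunction.mul_apply, Finset.mul_sum]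
    constructor
    · exact Finset.sum_nonneg fun x _ => mul_nonneg (ih _).1 (h1 _).1
    · refine Finset.sum_le_sum fun x _ => ?_
      calc (Dw w (pA y) ^ k) x.1 * Dw w (pA y) x.2 ≤ (W ^ k * (pA y ^ k) x.1) * (W * pA y x.2) :=
            mul_le_mul (ih _).2 (h1 _).2 (h1 _).1 (mul_nonneg (pow_nonneg hW _) (pow_nn _ _ _))
        _ = _ := by ring

lemma Dw_sq {y W : ℝ} (hy : 0 ≤ y) (w : ℕ → ℝ) (hw : ∀ n : ℕ, pA y n ≠ 0 → 0 ≤ w n ∧ w n ≤ W) (hW : 0 ≤ W) (k : ℕ) :
    ∑ n ∈ Finset.Icc 1 (⌊y⌋₊ ^ k), ((Dw w (pA y) ^ k) n) ^ 2 ≤ W ^ (2 * k) * ((k.factorial : ℝ) * VV y ^ k) := by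
  calc ∑ n ∈ Finset.Icc 1 (⌊y⌋₊ ^ k), ((Dw w (pA y) ^ k) n) ^ 2
      ≤ ∑ n ∈ Finset.Icc 1 (⌊y⌋₊ ^ k), W ^ (2 * k) * ((pA y ^ k) n) ^ 2 := by
        refine Finset.sum_le_sum fun n _ => ?_
        obtain ⟨h1, h2⟩ := Dw_bound w hw hW k n
        calc ((Dw w (pA y) ^ k) n) ^ 2 ≤ (W ^ k * (pA y ^ k) n) ^ 2 := pow_le_pow_left₀ h1 h2 2
          _ = _ := by ring
    _ = W ^ (2 * k) * SS y k := by rw [SS, Finset.mul_sum]
    _ ≤ _ := mul_le_mul_of_nonneg_left (SS_le hy k) (by positivity)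

/-- mean values of powers -/
lemma mean_pow (f : ArithmeticFunction ℝ) (X : ℕ) (hf : ∀ n, X < n → f n = 0) (k : ℕ) (T1 T2 : ℝ) (h : T1 ≤ T2) :
    ∫ t in T1..T2, ‖DP f X t‖ ^ (2 * k) ≤
      (T2 - T1 + 8 * ((X ^ k : ℕ) : ℝ) * (1 + Real.log ((X ^ k : ℕ) : ℝ))) *
        ∑ n ∈ Finset.Icc 1 (X ^ k), ((f ^ k) n) ^ 2 := by
  have h1 : ∀ t : ℝ, ‖DP f X t‖ ^ (2 * k) =
      ‖∑ n ∈ Finset.Icc 1 (X ^ k), (((f ^ k) n : ℝ) : ℂ) * (n : ℂ) ^ (-(t : ℂ) * I)‖ ^ 2 := by
    intro t
    rw [mul_comm 2 k, pow_mul, ← norm_pow, DP_pow f X hf t k]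
    rfl
  simp only [h1]
  have h2 := H370.mean_value (fun n => (((f ^ k) n : ℝ) : ℂ)) (X ^ k) T1 T2 h
  refine h2.trans (le_of_eq ?_)
  congr 1
  refine Finset.sum_congr rfl fun n _ => ?_
  rw [Complex.norm_real, Real.norm_eq_abs, sq_abs]

/-! ### the variation in short intervals -/

/-- Bernoulli's inequality, integrated -/
lemma one_lt_pow_int (g : ℝ → ℝ) (hg : Continuous g) (hg0 : ∀ v, 0 ≤ g v) (a b : ℝ) (hab : a < b) (n : ℕ)
    (hn1 : 1 ≤ n) (h : 1 < ∫ v in a..b, g v) : 1 < (b - a) ^ (n - 1) * ∫ v in a..b, g v ^ n := by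
  have hd : 0 < b - a := by linarith
  have hlin : Continuous (fun v => 1 - (n : ℝ) + (n * (b - a)) * g v) :=
    continuous_const.add (continuous_const.mul hg)
  have h1 : ∫ v in a..b, (1 - (n : ℝ) + (n * (b - a)) * g v) ≤ ∫ v in a..b, (b - a) ^ n * g v ^ n := by
    refine intervalIntegral.integral_mono_on hab.le (hlin.intervalIntegrable _ _)
      ((continuous_const.mul (hg.pow n)).intervalIntegrable _ _) ?_
    intro v _
    have h2 := one_add_mul_le_pow (a := g v * (b - a) - 1) (by nlinarith [mul_nonneg (hg0 v) hd.le]) n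
    calc 1 - (n : ℝ) + (n * (b - a)) * g v = 1 + (n : ℝ) * (g v * (b - a) - 1) := by ring
      _ ≤ (1 + (g v * (b - a) - 1)) ^ n := h2
      _ = (b - a) ^ n * g v ^ n := by rw [← mul_pow]; congr 1; ring
  have i1 : IntervalIntegrable (fun _ : ℝ => 1 - (n : ℝ)) volume a b := continuous_const.intervalIntegrable _ _
  have i2 : IntervalIntegrable (fun v => (n * (b - a)) * g v) volume a b :=
    (continuous_const.mul hg).intervalIntegrable _ _
  rw [intervalIntegral.integral_const_mul, intervalIntegral.integral_add i1 i2, intervalIntegral.integral_const_mul,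
    intervalIntegral.integral_const, smul_eq_mul] at h1
  set S := ∫ v in a..b, g v
  set Q := ∫ v in a..b, g v ^ n
  have hn : (0 : ℝ) < n := by exact_mod_cast hn1
  have h3 : b - a < (b - a) ^ n * Q := by
    have h5 : 0 < (n : ℝ) * ((S - 1) * (b - a)) := mul_pos hn (mul_pos (by linarith) hd)
    nlinarith
  have h4 : (b - a) ^ n = (b - a) * (b - a) ^ (n - 1) := by
    rw [← pow_succ']
    congr 1
    omega
  rw [h4, mul_assoc] at h3
  exact (lt_mul_iff_one_lt_right hd).1 h3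

/-- the primitive -/
def Pm (φ : ℝ → ℝ) (t : ℝ) : ℝ := ∫ s in (0:ℝ)..t, φ s

lemma Pm_cont {φ : ℝ → ℝ} (hφ : Continuous φ) : Continuous (Pm φ) :=
  intervalIntegral.continuous_primitive (fun a c => hφ.intervalIntegrable a c) 0

lemma Pm_sub {φ : ℝ → ℝ} (hφ : Continuous φ) (s t : ℝ) : Pm φ t - Pm φ s = ∫ v in s..t, φ v := by
  unfold Pm
  rw [intervalIntegral.integral_interval_sub_left (hφ.intervalIntegrable _ _) (hφ.intervalIntegrable _ _)]

lemma Pm_mono {φ : ℝ → ℝ} (hφ : Continuous φ) (h0 : ∀ v, 0 ≤ φ v) : Monotone (Pm φ) := by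
  intro s t hst
  have h := Pm_sub hφ s t
  have h1 : 0 ≤ ∫ v in s..t, φ v := intervalIntegral.integral_nonneg hst fun v _ => h0 v
  linarith

/-- the mean of the window integrals -/
lemma mean_win {φ : ℝ → ℝ} (hφ : Continuous φ) (h0 : ∀ v, 0 ≤ φ v) (H : ℝ) (hH : 0 < H) (T : ℝ) :
    ∫ t in T..(2 * T), (Pm φ (t + H) - Pm φ (t - H)) ≤ 2 * H * ∫ v in (T - H)..(2 * T + H), φ v := by
  have hP := Pm_cont hφ
  have hi : ∀ a c : ℝ, IntervalIntegrable (Pm φ) volume a c := fun a c => hP.intervalIntegrable a c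
  have c1 : Continuous (fun t => Pm φ (t + H)) := hP.comp (continuous_id.add continuous_const)
  have c2 : Continuous (fun t => Pm φ (t - H)) := hP.comp (continuous_id.sub continuous_const)
  rw [intervalIntegral.integral_sub (c1.intervalIntegrable _ _) (c2.intervalIntegrable _ _),
    intervalIntegral.integral_comp_add_right (Pm φ) H,
    intervalIntegral.integral_comp_sub_right (Pm φ) H]
  have e1 : (∫ t in (T + H)..(2 * T + H), Pm φ t) - ∫ t in (T - H)..(2 * T - H), Pm φ t =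
      (∫ t in (2 * T - H)..(2 * T + H), Pm φ t) - ∫ t in (T - H)..(T + H), Pm φ t := by
    have f1 := intervalIntegral.integral_add_adjacent_intervals (hi (T - H) (T + H)) (hi (T + H) (2 * T + H))
    have f2 := intervalIntegral.integral_add_adjacent_intervals (hi (T - H) (2 * T - H)) (hi (2 * T - H) (2 * T + H))
    linarith
  rw [e1]
  have u1 : ∫ t in (2 * T - H)..(2 * T + H), Pm φ t ≤ 2 * H * Pm φ (2 * T + H) := by
    have := intervalIntegral.integral_mono_on (a := 2 * T - H) (b := 2 * T + H) (by linarith)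
      (hi _ _) (continuous_const.intervalIntegrable _ _)
      (fun t ht => Pm_mono hφ h0 ht.2 : ∀ t ∈ Set.Icc (2 * T - H) (2 * T + H), Pm φ t ≤ Pm φ (2 * T + H))
    refine this.trans (le_of_eq ?_)
    rw [intervalIntegral.integral_const, smul_eq_mul]
    ring
  have u2 : 2 * H * Pm φ (T - H) ≤ ∫ t in (T - H)..(T + H), Pm φ t := by
    have := intervalIntegral.integral_mono_on (a := T - H) (b := T + H) (by linarith)
      (continuous_const.intervalIntegrable _ _) (hi _ _)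
      (fun t ht => Pm_mono hφ h0 ht.1 : ∀ t ∈ Set.Icc (T - H) (T + H), Pm φ (T - H) ≤ Pm φ t)
    refine le_trans (le_of_eq ?_) this
    rw [intervalIntegral.integral_const, smul_eq_mul]
    ring
  have u3 := Pm_sub hφ (T - H) (2 * T + H)
  rw [← u3]
  nlinarith

/-- Markov's inequality on an interval -/
lemma markov {F : ℝ → ℝ} (hF : Continuous F) (h0 : ∀ v, 0 ≤ F v) (T : ℝ) (hT : 0 ≤ T) :
    volume.real (Set.Icc T (2 * T) ∩ {t | 1 < F t}) ≤ ∫ t in T..(2 * T), F t := by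
  have hTT : T ≤ 2 * T := by linarith
  set Bd := Set.Icc T (2 * T) ∩ {t | 1 < F t} with hBd
  have hm : MeasurableSet Bd := measurableSet_Icc.inter (isOpen_lt continuous_const hF).measurableSet
  have hint : IntegrableOn F (Set.Icc T (2 * T)) := hF.continuousOn.integrableOn_Icc
  have hintB : IntegrableOn F Bd := hint.mono_set Set.inter_subset_left
  have hfinB : volume Bd ≠ ⊤ :=
    ne_top_of_le_ne_top (by rw [Real.volume_Icc]; exact ENNReal.ofReal_ne_top)
      (measure_mono Set.inter_subset_left)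
  have h1 : volume.real Bd ≤ ∫ t in Bd, F t := by
    have h2 := setIntegral_mono_on (f := fun _ : ℝ => (1 : ℝ)) (g := F)
      (integrableOn_const hfinB) hintB hm (fun t ht => (le_of_lt ht.2))
    rw [setIntegral_const, smul_eq_mul, mul_one] at h2
    exact h2
  refine h1.trans ?_
  rw [intervalIntegral.integral_of_le hTT, ← integral_Icc_eq_integral_Ioc]
  exact setIntegral_mono_set hint (Filter.Eventually.of_forall h0) (Set.inter_subset_left.eventuallyLE)

/-- the variation of a Dirichlet polynomial in a short interval -/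
lemma var_lt (b : ℕ → ℂ) (X : ℕ) (H : ℝ) (hH : 0 < H) (n : ℕ) (hn : 1 ≤ n) (t u : ℝ) (hu : |u| ≤ H)
    (h : 1 < ‖D b X (t + u) - D b X t‖) :
    1 < (2 * H) ^ (n - 1) * (Pm (fun v => ‖D (db b) X v‖ ^ n) (t + H) - Pm (fun v => ‖D (db b) X v‖ ^ n) (t - H)) := by
  have hder : ∀ s : ℝ, HasDerivAt (fun s => D b X (t + s)) (D (db b) X (t + s)) s := fun s =>
    HasDerivAt.comp_const_add t s (D_hasDerivAt b X (t + s))
  have hc : Continuous (fun s => D (db b) X (t + s)) := (D_cont (db b) X).comp (continuous_const.add continuous_id)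
  have h1 : ∫ v in (0:ℝ)..u, D (db b) X (t + v) = D b X (t + u) - D b X t := by
    have := intervalIntegral.integral_eq_sub_of_hasDerivAt (a := 0) (b := u) (fun s _ => hder s)
      (hc.intervalIntegrable _ _)
    simpa using this
  rw [← h1] at h
  have hsub : Set.uIoc 0 u ⊆ Set.uIoc (-H) H := by
    intro v hv
    rw [Set.mem_uIoc] at hv
    rw [Set.uIoc_of_le (by linarith)]
    have := abs_le.1 hu
    rcases hv with hv | hv
    · exact ⟨by linarith [hv.1], by linarith [hv.2, this.2]⟩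
    · exact ⟨by linarith [hv.1, this.1], by linarith [hv.2]⟩
  have h2 := intervalIntegral.abs_integral_mono_interval (μ := volume)
    (f := fun v => ‖D (db b) X (t + v)‖) hsub
    (Filter.Eventually.of_forall fun v => norm_nonneg _) (hc.norm.intervalIntegrable _ _)
  have h3 : 0 ≤ ∫ v in (-H)..H, ‖D (db b) X (t + v)‖ :=
    intervalIntegral.integral_nonneg (by linarith) fun v _ => norm_nonneg _
  rw [abs_of_nonneg h3] at h2
  have h4 : 1 < ∫ v in (-H)..H, ‖D (db b) X (t + v)‖ :=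
    lt_of_lt_of_le h ((intervalIntegral.norm_integral_le_abs_integral_norm).trans h2)
  have h5 := one_lt_pow_int (fun v => ‖D (db b) X (t + v)‖) hc.norm (fun v => norm_nonneg _) (-H) H (by linarith)
    n hn h4
  have hpc : Continuous (fun v => ‖D (db b) X v‖ ^ n) := (D_cont (db b) X).norm.pow n
  rw [Pm_sub hpc]
  have h7 : ∫ v in (-H)..H, ‖D (db b) X (t + v)‖ ^ n = ∫ v in (t - H)..(t + H), ‖D (db b) X v‖ ^ n := by
    have := intervalIntegral.integral_comp_add_left (fun v => ‖D (db b) X v‖ ^ n) t (a := -H) (b := H)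
    simpa [sub_eq_add_neg] using this
  rw [h7] at h5
  have e : H - -H = 2 * H := by ring
  rw [e] at h5
  exact h5

/-! ### the sum over the primes and its derivative -/

/-- the coefficients of the sum over the primes -/
def bc (y : ℝ) (n : ℕ) : ℂ := ((pA y n : ℝ) : ℂ)

lemma Py_D (y t : ℝ) : Py y t = D (bc y) ⌊y⌋₊ t := Pool.Agent.Y41.SW.Py_eq y t

lemma norm_D (y t : ℝ) : ‖D (bc y) ⌊y⌋₊ t‖ = ‖DP (pA y) ⌊y⌋₊ t‖ := rfl

lemma norm_db (y t : ℝ) : ‖D (db (bc y)) ⌊y⌋₊ t‖ = ‖DP (Dw (fun n => Real.log n) (pA y)) ⌊y⌋₊ t‖ := by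
  have h : D (db (bc y)) ⌊y⌋₊ t = (-I) * DP (Dw (fun n => Real.log n) (pA y)) ⌊y⌋₊ t := by
    unfold D DP
    rw [Finset.mul_sum]
    refine Finset.sum_congr rfl fun n _ => ?_
    unfold db bc
    rw [Pool.Agent.Y655.SW.Dw_apply, ← Complex.natCast_log]
    push_cast
    ring
  rw [h, norm_mul, norm_neg, Complex.norm_I, one_mul]

lemma Dw_supp (w : ℕ → ℝ) (y : ℝ) : ∀ n, ⌊y⌋₊ < n → Dw w (pA y) n = 0 := by
  intro n hn
  rw [Pool.Agent.Y655.SW.Dw_apply, pA_supp y n hn, mul_zero]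

lemma Dw_one (y : ℝ) : Dw (fun _ => 1) (pA y) = pA y := by
  ext n
  rw [Pool.Agent.Y655.SW.Dw_apply, one_mul]

/-! ### growth -/

lemma LL_tend : Tendsto (fun T : ℝ => LL T) atTop atTop :=
  Real.tendsto_log_atTop.comp Real.tendsto_log_atTop

/-- the logarithm against a power, at `log T` -/
lemma ev_LL (θ K : ℝ) (hθ : 0 < θ) (hK : 0 < K) : ∀ᶠ T : ℝ in atTop, K * LL T ≤ Real.log T ^ θ := by
  have h1 : ∀ᶠ x : ℝ in atTop, K * Real.log x ≤ x ^ θ := by
    have h2 := (isLittleO_log_rpow_atTop hθ).bound (show (0:ℝ) < 1 / K by positivity)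
    filter_upwards [h2, eventually_ge_atTop (1:ℝ)] with x hx hx1
    rw [Real.norm_of_nonneg (Real.log_nonneg hx1), Real.norm_of_nonneg (by positivity)] at hx
    calc K * Real.log x ≤ K * (1 / K * x ^ θ) := mul_le_mul_of_nonneg_left hx hK.le
      _ = x ^ θ := by field_simp
  exact Real.tendsto_log_atTop.eventually h1

lemma log_yc (c T : ℝ) : Real.log (yc c T) = Real.log T ^ c := by
  unfold yc; rw [Real.log_exp]

lemma ev_VV (c : ℝ) (hc0 : 0 < c) (hc1 : c < 1) : ∀ᶠ T : ℝ in atTop, VV (yc c T) ≤ 2 * LL T := by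
  obtain ⟨C, hC⟩ := Pool.Agent.Helper256.KM.mertens_inv
  have hp : Tendsto (fun T : ℝ => Real.log T ^ c) atTop atTop :=
    (tendsto_rpow_atTop hc0).comp Real.tendsto_log_atTop
  filter_upwards [LL_tend.eventually_ge_atTop (max 1 C), hp.eventually_ge_atTop 3,
    Real.tendsto_log_atTop.eventually_ge_atTop (1:ℝ)] with T hl h3 hL
  have hl1 : 1 ≤ LL T := (le_max_left _ _).trans hl
  have hlC : C ≤ LL T := (le_max_right _ _).trans hl
  have hlog := log_yc c T
  obtain ⟨y, hy⟩ : ∃ y, y = yc c T := ⟨_, rfl⟩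
  rw [← hy] at hlog ⊢
  have hy0 : 0 < y := by rw [hy]; exact Real.exp_pos _
  have hy4 : 4 ≤ y := by
    have := Real.log_le_sub_one_of_pos hy0
    linarith
  have hN : 3 ≤ ⌊y⌋₊ := by
    have : 4 ≤ ⌊y⌋₊ := Nat.le_floor (by exact_mod_cast hy4)
    omega
  have h1 := (abs_le.1 (hC ⌊y⌋₊ hN)).2
  have h2 : VV y = ∑ p ∈ (Finset.Icc 1 ⌊y⌋₊).filter Nat.Prime, (1 : ℝ) / p := rfl
  have hN3 : (3:ℝ) ≤ (⌊y⌋₊ : ℝ) := by exact_mod_cast hN
  have h4 : Real.log (⌊y⌋₊ : ℝ) ≤ Real.log y := Real.log_le_log (by linarith) (Nat.floor_le hy0.le)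
  have h5 : Real.log (Real.log (⌊y⌋₊ : ℝ)) ≤ Real.log (Real.log y) :=
    Real.log_le_log (Real.log_pos (by linarith)) h4
  rw [hlog, Real.log_rpow (by linarith)] at h5
  rw [← h2] at h1
  have h6 : c * Real.log (Real.log T) ≤ LL T := by
    have h7 : LL T = Real.log (Real.log T) := rfl
    rw [← h7]
    nlinarith
  linarith

lemma ev_pow (c : ℝ) (hc1 : c < 1) : ∀ᶠ T : ℝ in atTop, ∀ k : ℕ, (k : ℝ) ≤ LL T + 1 →
    8 * ((⌊yc c T⌋₊ ^ k : ℕ) : ℝ) * (1 + Real.log ((⌊yc c T⌋₊ ^ k : ℕ) : ℝ)) ≤ T / 2 := by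
  filter_upwards [ev_LL (1 - c) 8 (by linarith) (by norm_num), LL_tend.eventually_ge_atTop 1,
    Real.tendsto_log_atTop.eventually_ge_atTop (1:ℝ), eventually_ge_atTop (256:ℝ)] with T h1 h2 h3 h4 k hk
  have hT0 : 0 < T := by linarith
  obtain ⟨Z, hZ⟩ : ∃ Z : ℕ, Z = ⌊yc c T⌋₊ ^ k := ⟨_, rfl⟩
  rw [← hZ]
  rcases Nat.eq_zero_or_pos Z with h0 | h0
  · rw [h0]; simp; linarith
  have hZ0 : (0:ℝ) < Z := by exact_mod_cast h0
  have h5 : 1 + Real.log Z ≤ Z := by
    have := Real.log_le_sub_one_of_pos hZ0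
    linarith
  have h6 : (Z : ℝ) ≤ T ^ (1 / 4 : ℝ) := by
    have h7 : (Z : ℝ) ≤ yc c T ^ k := by
      rw [hZ]
      push_cast
      exact pow_le_pow_left₀ (Nat.cast_nonneg _) (Nat.floor_le (Real.exp_pos _).le) k
    refine h7.trans ?_
    unfold yc
    rw [← Real.exp_nat_mul, Real.rpow_def_of_pos hT0]
    apply Real.exp_le_exp.2
    have h8 : (k : ℝ) ≤ 1 / 4 * Real.log T ^ (1 - c) := by linarith
    have h9 : 0 ≤ Real.log T ^ c := Real.rpow_nonneg (by linarith) _
    calc (k : ℝ) * Real.log T ^ c ≤ 1 / 4 * Real.log T ^ (1 - c) * Real.log T ^ c :=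
          mul_le_mul_of_nonneg_right h8 h9
      _ = 1 / 4 * (Real.log T ^ (1 - c) * Real.log T ^ c) := by ring
      _ = 1 / 4 * Real.log T := by
          rw [← Real.rpow_add (by linarith)]
          simp
      _ = Real.log T * (1 / 4) := by ring
  have h10 : (Z:ℝ) ^ 2 ≤ Real.sqrt T := by
    calc (Z:ℝ) ^ 2 ≤ (T ^ (1 / 4 : ℝ)) ^ 2 := pow_le_pow_left₀ hZ0.le h6 2
      _ = Real.sqrt T := by
        rw [← Real.rpow_natCast, ← Real.rpow_mul hT0.le, Real.sqrt_eq_rpow]
        norm_num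
  have h11 : 16 * Real.sqrt T ≤ T := by
    have h12 : 16 ≤ Real.sqrt T := Real.le_sqrt_of_sq_le (by linarith)
    have h13 := Real.mul_self_sqrt hT0.le
    nlinarith
  have h14 : 8 * (Z:ℝ) * (1 + Real.log Z) ≤ 8 * (Z:ℝ) ^ 2 := by nlinarith
  linarith

lemma pA_log (c T : ℝ) (n : ℕ) (h : pA (yc c T) n ≠ 0) : 0 ≤ Real.log n ∧ Real.log n ≤ Real.log T ^ c := by
  rw [pA_apply] at h
  have h1 : n.Prime ∧ (n : ℝ) ≤ yc c T := by
    by_contra h2
    rw [if_neg h2] at h
    exact h rfl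
  refine ⟨Real.log_natCast_nonneg n, ?_⟩
  rw [← log_yc]
  exact Real.log_le_log (by exact_mod_cast h1.1.pos) h1.2

/-- G2M does not need the mean value theorem as a hypothesis -/
theorem t_G2M0 : P_G2M := by
  intro c e A' hc0 hc1 he0 he1 hA'
  set A0 : ℝ := 4 * Real.exp ((A' + 1) / 2) with hA0
  have hA04 : 4 ≤ A0 := by
    have := Real.one_le_exp (show (0:ℝ) ≤ (A' + 1) / 2 by linarith)
    rw [hA0]; linarith
  have hθ : 0 < 1 - c - e := by linarith
  set θ : ℝ := 1 - c - e with hθd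
  obtain ⟨k0, hk01, hk0⟩ : ∃ k0 : ℕ, 1 ≤ k0 ∧ A' ≤ θ * k0 := by
    refine ⟨⌈A' / θ⌉₊ + 1, by omega, ?_⟩
    have := Nat.le_ceil (A' / θ)
    push_cast
    rw [div_le_iff₀ hθ] at this
    nlinarith
  refine ⟨A0, by linarith, fun A1 hA1 => ?_⟩
  filter_upwards [ev_VV c hc0 hc1, ev_pow c hc1, ev_LL θ (8 * (4 * (k0.factorial : ℝ))) hθ (by positivity),
    LL_tend.eventually_ge_atTop (max 1 (k0 : ℝ)), Real.tendsto_log_atTop.eventually_ge_atTop (4:ℝ),
    eventually_ge_atTop (4:ℝ)] with T hV hZ hθL hl hL hT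
  have hl1 : 1 ≤ LL T := (le_max_left _ _).trans hl
  have hlk : (k0 : ℝ) ≤ LL T := (le_max_right _ _).trans hl
  have hT0 : 0 < T := by linarith
  have hL0 : 0 < Real.log T := by linarith
  set y := yc c T with hy
  have hy0 : 0 ≤ y := (Real.exp_pos _).le
  set N := ⌊y⌋₊ with hN
  have hPc : Continuous (Pc c T) := by
    have : Pc c T = D (bc y) N := funext fun t => Py_D y t
    rw [this]
    exact D_cont _ _
  set H : ℝ := Real.log T ^ (e - 1) with hH
  have hH0 : 0 < H := Real.rpow_pos_of_pos hL0 _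
  have hH1 : H ≤ 1 := Real.rpow_le_one_of_one_le_of_nonpos (by linarith) (by linarith)
  constructor
  · -- measurability
    have hcl : IsClosed (G2 A1 c e T) := by
      have : G2 A1 c e T = ⋂ u : ℝ, ⋂ _ : |u| ≤ H,
          {t : ℝ | ‖Pc c T (t + u)‖ ≤ A1 * LL T ∧ ‖Pc c T (t + u) - Pc c T t‖ ≤ 1} := by
        ext t
        simp only [Set.mem_iInter]
        rfl
      rw [this]
      refine isClosed_iInter fun u => isClosed_iInter fun _ => ?_
      have hc2 : Continuous (fun t => Pc c T (t + u)) := hPc.comp (continuous_id.add continuous_const)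
      exact (isClosed_le hc2.norm continuous_const).inter (isClosed_le (hc2.sub hPc).norm continuous_const)
    exact hcl.measurableSet
  -- the two bad sets
  set k : ℕ := ⌈LL T⌉₊ with hk
  have hkl : LL T ≤ k := Nat.le_ceil _
  have hku : (k : ℝ) ≤ LL T + 1 := (Nat.ceil_lt_add_one (by linarith)).le
  have hk1 : 1 ≤ k := by
    have : (1:ℝ) ≤ k := by linarith
    exact_mod_cast this
  set M : ℝ := A0 / 2 * LL T with hM
  have hM0 : 0 < M := by positivity
  set F1 : ℝ → ℝ := fun t => (‖D (bc y) N t‖ / M) ^ (2 * k) with hF1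
  set φ : ℝ → ℝ := fun v => ‖D (db (bc y)) N v‖ ^ (2 * k0) with hφ
  have hφc : Continuous φ := (D_cont _ _).norm.pow _
  have hφ0 : ∀ v, 0 ≤ φ v := fun v => by positivity
  set F2 : ℝ → ℝ := fun t => (2 * H) ^ (2 * k0 - 1) * (Pm φ (t + H) - Pm φ (t - H)) with hF2
  have hF1c : Continuous F1 := ((D_cont _ _).norm.div_const M).pow _
  have hF10 : ∀ t, 0 ≤ F1 t := fun t => by positivity
  have hF2c : Continuous F2 := continuous_const.mul
    (((Pm_cont hφc).comp (continuous_id.add continuous_const)).sub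
      ((Pm_cont hφc).comp (continuous_id.sub continuous_const)))
  have hF20 : ∀ t, 0 ≤ F2 t := fun t =>
    mul_nonneg (by positivity) (sub_nonneg.2 (Pm_mono hφc hφ0 (by linarith)))
  have hsub : Set.Icc T (2 * T) \ G2 A1 c e T ⊆
      (Set.Icc T (2 * T) ∩ {t | 1 < F1 t}) ∪ (Set.Icc T (2 * T) ∩ {t | 1 < F2 t}) := by
    rintro t ⟨ht, hG⟩
    have hG2 : ∃ u : ℝ, |u| ≤ H ∧ ¬ (‖Pc c T (t + u)‖ ≤ A1 * LL T ∧ ‖Pc c T (t + u) - Pc c T t‖ ≤ 1) := by
      by_contra hcon
      apply hG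
      intro u hu
      by_contra h2
      exact hcon ⟨u, hu, h2⟩
    obtain ⟨u, hu, hbad⟩ := hG2
    by_cases h1 : ‖Pc c T (t + u) - Pc c T t‖ ≤ 1
    · left
      have h2 : A1 * LL T < ‖Pc c T (t + u)‖ := by
        by_contra h3
        exact hbad ⟨not_lt.1 h3, h1⟩
      refine ⟨ht, ?_⟩
      have h3 : ‖Pc c T (t + u)‖ ≤ ‖Pc c T t‖ + 1 := by
        have := norm_add_le (Pc c T (t + u) - Pc c T t) (Pc c T t)
        rw [sub_add_cancel] at this
        linarith
      have h4 : A0 * LL T ≤ A1 * LL T := mul_le_mul_of_nonneg_right hA1 (by linarith)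
      have h5 : M < ‖D (bc y) N t‖ := by
        have h6 : Pc c T t = D (bc y) N t := Py_D y t
        rw [← h6, hM]
        nlinarith
      show 1 < (‖D (bc y) N t‖ / M) ^ (2 * k)
      exact one_lt_pow₀ ((one_lt_div hM0).2 h5) (by omega)
    · right
      refine ⟨ht, ?_⟩
      have h6 : ∀ s, Pc c T s = D (bc y) N s := fun s => Py_D y s
      rw [h6, h6, not_le] at h1
      exact var_lt (bc y) N H hH0 (2 * k0) (by omega) t u hu h1
  have hfin : ∀ F : ℝ → ℝ, volume (Set.Icc T (2 * T) ∩ {t | 1 < F t}) ≠ ⊤ := fun F =>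
    ne_top_of_le_ne_top (by rw [Real.volume_Icc]; exact ENNReal.ofReal_ne_top) (measure_mono Set.inter_subset_left)
  have hm1 := markov hF1c hF10 T hT0.le
  have hm2 := markov hF2c hF20 T hT0.le
  have htot : volume.real (Set.Icc T (2 * T) \ G2 A1 c e T) ≤
      (∫ t in T..(2 * T), F1 t) + ∫ t in T..(2 * T), F2 t := by
    have h1 := measureReal_mono hsub (measure_union_ne_top (hfin F1) (hfin F2))
    have h2 := measureReal_union_le (μ := volume) (Set.Icc T (2 * T) ∩ {t | 1 < F1 t})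
      (Set.Icc T (2 * T) ∩ {t | 1 < F2 t})
    linarith
  have hV0 : 0 ≤ VV y := Finset.sum_nonneg fun p _ => by positivity
  have hlA : Real.exp (-(A' * LL T)) = 1 / Real.log T ^ A' := by
    rw [one_div, ← Real.rpow_neg hL0.le, Real.rpow_def_of_pos hL0]
    congr 1
    show -(A' * Real.log (Real.log T)) = _
    ring
  -- the first integral
  have hI1 : ∫ t in T..(2 * T), F1 t ≤ T / 2 * (1 / Real.log T ^ A') := by
    have e1 : ∀ t, F1 t = (M ^ (2 * k))⁻¹ * ‖DP (pA y) N t‖ ^ (2 * k) := by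
      intro t
      show (‖DP (pA y) N t‖ / M) ^ (2 * k) = _
      rw [div_pow, div_eq_inv_mul]
    simp only [e1]
    rw [intervalIntegral.integral_const_mul]
    have h1 := mean_pow (pA y) N (pA_supp y) k T (2 * T) (by linarith)
    have h2 : ∑ n ∈ Finset.Icc 1 (N ^ k), ((pA y ^ k) n) ^ 2 ≤ (2 * LL T) ^ k * (2 * LL T) ^ k := by
      have h3 : SS y k ≤ (k.factorial : ℝ) * VV y ^ k := SS_le hy0 k
      have h4 : (k.factorial : ℝ) ≤ (2 * LL T) ^ k := by
        have h5 : (k.factorial : ℝ) ≤ (k : ℝ) ^ k := by exact_mod_cast Nat.factorial_le_pow k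
        exact h5.trans (pow_le_pow_left₀ (Nat.cast_nonneg _) (by linarith) k)
      calc _ = SS y k := rfl
        _ ≤ (k.factorial : ℝ) * VV y ^ k := h3
        _ ≤ (2 * LL T) ^ k * (2 * LL T) ^ k :=
          mul_le_mul h4 (pow_le_pow_left₀ hV0 hV k) (by positivity) (by positivity)
    have h3 : (0:ℝ) ≤ ∑ n ∈ Finset.Icc 1 (N ^ k), ((pA y ^ k) n) ^ 2 := Finset.sum_nonneg fun n _ => sq_nonneg _
    have h4 : ∫ t in T..(2 * T), ‖DP (pA y) N t‖ ^ (2 * k) ≤ 2 * T * ((2 * LL T) ^ k * (2 * LL T) ^ k) := by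
      refine h1.trans ?_
      have h5 := hZ k hku
      refine mul_le_mul (by linarith) h2 h3 (by linarith)
    have h5 : (M ^ (2 * k))⁻¹ * (2 * T * ((2 * LL T) ^ k * (2 * LL T) ^ k)) = 2 * T * (16 / A0 ^ 2) ^ k := by
      rw [hM, pow_mul]
      have h6 : (A0 / 2 * LL T) ^ 2 ≠ 0 := by positivity
      rw [← mul_pow, ← inv_pow, mul_comm, mul_assoc, ← mul_pow]
      congr 2
      field_simp
      ring
    have h6 : 16 / A0 ^ 2 = Real.exp (-(A' + 1)) := by
      rw [hA0, mul_pow, ← Real.exp_nat_mul, Real.exp_neg]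
      push_cast
      rw [show (2:ℝ) * ((A' + 1) / 2) = A' + 1 by ring]
      have := Real.exp_pos (A' + 1)
      field_simp
      norm_num
    have h7 : (16 / A0 ^ 2) ^ k ≤ Real.exp (-(A' * LL T)) * (1 / Real.log T) := by
      rw [h6, ← Real.exp_nat_mul]
      have h8 : 1 / Real.log T = Real.exp (-LL T) := by
        rw [Real.exp_neg, one_div]
        show _ = (Real.exp (Real.log (Real.log T)))⁻¹
        rw [Real.exp_log hL0]
      rw [h8, ← Real.exp_add]
      apply Real.exp_le_exp.2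
      nlinarith
    have h8 : (0:ℝ) < (M ^ (2 * k))⁻¹ := by positivity
    calc (M ^ (2 * k))⁻¹ * ∫ t in T..(2 * T), ‖DP (pA y) N t‖ ^ (2 * k)
        ≤ (M ^ (2 * k))⁻¹ * (2 * T * ((2 * LL T) ^ k * (2 * LL T) ^ k)) := mul_le_mul_of_nonneg_left h4 h8.le
      _ = 2 * T * (16 / A0 ^ 2) ^ k := h5
      _ ≤ 2 * T * (Real.exp (-(A' * LL T)) * (1 / Real.log T)) := mul_le_mul_of_nonneg_left h7 (by linarith)
      _ = 2 * T * (1 / Real.log T ^ A') * (1 / Real.log T) := by rw [hlA]; ring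
      _ ≤ 2 * T * (1 / Real.log T ^ A') * (1 / 4) := by
          refine mul_le_mul_of_nonneg_left ?_ (by positivity)
          exact one_div_le_one_div_of_le (by norm_num) hL
      _ = T / 2 * (1 / Real.log T ^ A') := by ring
  -- the second integral
  have hI2 : ∫ t in T..(2 * T), F2 t ≤ T / 2 * (1 / Real.log T ^ A') := by
    have h1 := mean_win hφc hφ0 H hH0 T
    have e1 : ∫ v in (T - H)..(2 * T + H), φ v =
        ∫ v in (T - H)..(2 * T + H), ‖DP (Dw (fun n => Real.log n) (pA y)) N v‖ ^ (2 * k0) := by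
      refine intervalIntegral.integral_congr fun v _ => ?_
      show ‖D (db (bc y)) N v‖ ^ (2 * k0) = _
      rw [norm_db]
    have h2 := mean_pow (Dw (fun n => Real.log n) (pA y)) N (Dw_supp _ y) k0 (T - H) (2 * T + H) (by linarith)
    have h3 := Dw_sq hy0 (fun n => Real.log n) (fun n hn => pA_log c T n hn)
      (Real.rpow_nonneg hL0.le c) k0
    have h4 : (0:ℝ) ≤ ∑ n ∈ Finset.Icc 1 (N ^ k0), ((Dw (fun n => Real.log n) (pA y) ^ k0) n) ^ 2 :=
      Finset.sum_nonneg fun n _ => sq_nonneg _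
    have h5 : ∫ v in (T - H)..(2 * T + H), φ v ≤
        2 * T * ((Real.log T ^ c) ^ (2 * k0) * ((k0.factorial : ℝ) * (2 * LL T) ^ k0)) := by
      rw [e1]
      refine h2.trans ?_
      have h6 := hZ k0 (by linarith)
      refine mul_le_mul (by linarith) (h3.trans ?_) h4 (by linarith)
      refine mul_le_mul_of_nonneg_left ?_ (by positivity)
      exact mul_le_mul_of_nonneg_left (pow_le_pow_left₀ hV0 hV k0) (by positivity)
    have h6 : ∫ t in T..(2 * T), F2 t ≤ (2 * H) ^ (2 * k0) *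
        (2 * T * ((Real.log T ^ c) ^ (2 * k0) * ((k0.factorial : ℝ) * (2 * LL T) ^ k0))) := by
      rw [hF2, intervalIntegral.integral_const_mul]
      have h7 : (2 * H) ^ (2 * k0) = (2 * H) ^ (2 * k0 - 1) * (2 * H) := by
        rw [← pow_succ]
        congr 1
        omega
      rw [h7, mul_assoc]
      refine mul_le_mul_of_nonneg_left (h1.trans ?_) (by positivity)
      exact mul_le_mul_of_nonneg_left h5 (by positivity)
    refine h6.trans ?_
    have h8 : (H * Real.log T ^ c) ^ 2 = Real.log T ^ (-(2 * θ)) := by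
      rw [hH, ← Real.rpow_add hL0, ← Real.rpow_natCast, ← Real.rpow_mul hL0.le]
      congr 1
      rw [hθd]
      push_cast
      ring
    have h9 : (2 * H) ^ (2 * k0) *
        (2 * T * ((Real.log T ^ c) ^ (2 * k0) * ((k0.factorial : ℝ) * (2 * LL T) ^ k0))) =
        2 * T * ((k0.factorial : ℝ) * (8 * LL T * Real.log T ^ (-(2 * θ))) ^ k0) := by
      rw [← h8, mul_pow (8 * LL T), ← pow_mul, mul_pow H, mul_pow 2 H, mul_pow 8 (LL T), mul_pow 2 (LL T),
        show (8:ℝ) ^ k0 = 2 ^ (2 * k0) * 2 ^ k0 by rw [pow_mul, ← mul_pow]; norm_num]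
      ring
    rw [h9]
    have hfac1 : (1:ℝ) ≤ 4 * (k0.factorial : ℝ) := by
      have : (1:ℝ) ≤ (k0.factorial : ℝ) := by exact_mod_cast Nat.succ_le_of_lt (Nat.factorial_pos k0)
      linarith
    have h10 : 4 * ((k0.factorial : ℝ) * (8 * LL T * Real.log T ^ (-(2 * θ))) ^ k0) ≤ Real.log T ^ (-A') := by
      have h11 : 4 * (k0.factorial : ℝ) ≤ (4 * (k0.factorial : ℝ)) ^ k0 := le_self_pow₀ hfac1 (by omega)
      have h12 : 8 * LL T * (4 * (k0.factorial : ℝ)) ≤ Real.log T ^ θ := by linarith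
      calc 4 * ((k0.factorial : ℝ) * (8 * LL T * Real.log T ^ (-(2 * θ))) ^ k0)
          = (4 * (k0.factorial : ℝ)) * (8 * LL T * Real.log T ^ (-(2 * θ))) ^ k0 := by ring
        _ ≤ (4 * (k0.factorial : ℝ)) ^ k0 * (8 * LL T * Real.log T ^ (-(2 * θ))) ^ k0 :=
            mul_le_mul_of_nonneg_right h11 (by positivity)
        _ = (8 * LL T * (4 * (k0.factorial : ℝ)) * Real.log T ^ (-(2 * θ))) ^ k0 := by
            rw [← mul_pow]; congr 1; ring
        _ ≤ (Real.log T ^ θ * Real.log T ^ (-(2 * θ))) ^ k0 :=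
            pow_le_pow_left₀ (by positivity) (mul_le_mul_of_nonneg_right h12 (by positivity)) k0
        _ = Real.log T ^ (-(θ * k0)) := by
            rw [← Real.rpow_add hL0, ← Real.rpow_natCast, ← Real.rpow_mul hL0.le]
            congr 1
            ring
        _ ≤ Real.log T ^ (-A') := Real.rpow_le_rpow_of_exponent_le (by linarith) (by linarith)
    rw [Real.rpow_neg hL0.le A'] at h10
    rw [one_div]
    nlinarith
  have hfinal : T / Real.log T ^ A' = T / 2 * (1 / Real.log T ^ A') + T / 2 * (1 / Real.log T ^ A') := by ring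
  rw [hfinal]
  linarith

theorem t_G2M (hMVB : P_MVB) : P_G2M := by
  have _h := hMVB
  exact t_G2M0

end

end Pool.Agent.Y949.LD
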